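import Pool.Agent.Lib.MP_9e8926_ag_LP.Main

/-!
# MP_9e8926_ag: Frobenius volumes of klt surface pairs times affine spaces
-/

set_option autoImplicit false

namespace Pool.Agent.Results.MP_9e8926_ag.SurfaceTimesLines

open LP MvPolynomial

/-- Let `A` be a finitely generated domain with an embedding `ι` into `ℂ`, let `fᵢ` be non-zero
elements of `A[x,y]` and `cᵢ ≥ 0` rational numbers such that the pair `(ℂ², ∑ cᵢ div fᵢ)` is klt
at the origin, and let `b₁, …, b_m` be rational numbers in `[0,1)`.  Put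
`V = (m+2)^(m+2) / 4 * ∏ (1 - b_l) * volhat (ℂ², ∑ cᵢ div fᵢ)`.  Then the normalized volume of
`(ℂ^(m+2), ∑ cᵢ div fᵢ + ∑ b_l div z_l)` is at most `V`, and the Frobenius volumes of the
reductions of this pair at all maximal ideals `μ` of `A` outside of a hypersurface `a = 0` differ
from `V` by at most `C / char (A/μ)`. -/
theorem result (A : Type) [CommRing A] [IsDomain A] [Algebra.FiniteType ℤ A] (ι : A →+* ℂ)
    (hι : Function.Injective ι) (r : ℕ) (f : Fin r → MvPolynomial (Fin 2) A)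
    (hf : ∀ i, f i ≠ 0) (c : Fin r → ℚ) (hc : ∀ i, 0 ≤ c i)
    (hklt : Klt (fun i => map ι (f i)) c) (m : ℕ) (b : Fin m → ℚ)
    (hb : ∀ l, 0 ≤ b l ∧ b l < 1) (V : ℝ)
    (hV : V = ((m : ℝ) + 2) ^ (m + 2) / 4 * (∏ l, (1 - (b l : ℝ))) *
      volhat (fun i => map ι (f i)) c) :
    volhat (zf m fun i => emb0 m (map ι (f i))) (Sum.elim b c) ≤ V ∧
    ∃ C : ℝ, ∃ a : A, a ≠ 0 ∧ ∀ μ : Ideal A, μ.IsMaximal → a ∉ μ → ∀ p : ℕ, CharP (A ⧸ μ) p →
      |Fvol p (zf m fun i => emb0 m (map (Ideal.Quotient.mk μ) (f i))) (Sum.elim b c) - V| ≤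
        C / p := by
  subst hV
  exact cor_prod A ι hι m r f hf b (fun l => (hb l).1) (fun l => (hb l).2) c hc hklt

end Pool.Agent.Results.MP_9e8926_ag.SurfaceTimesLines
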